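import Pool.Agent.W251.GX.Defs
import Pool.Agent.W349.GS.Dec

/-!
Project GX (helper251), task GX-DEC (helper803): the decomposition for completely multiplicative
functions with values in the roots of unity (port of `Pool.Agent.W440.FP.Decf`).
-/

set_option autoImplicit false

namespace Pool.Agent.W803.GX

open Finset Filter
open Pool.Agent.H376R2.MR hiding GG Sm
open Pool.Agent.W78.GA hiding GG PE S_DEC
open Pool.Agent.W638.GA hiding one_term GG_eq sum_eq dec_of
open Pool.Agent.W349.GS (gl_sq dec_bound)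
open Pool.Agent.W251.GX

variable {t c : ℤ} {Ap Bp M : ℕ → Prop} {E : ℕ} {ρ : ℕ → ℤ} {ϖ : ℕ → Qd t c} {F : Qd t c → ℂ}
  {N : ℕ}

lemma norm_F (hF : Cm N F) (z : Qd t c) : ‖F z‖ = 1 := by
  have h1 : ‖F z‖ ^ N = 1 := by rw [← norm_pow, hF.pow, norm_one]
  exact (pow_eq_one_iff_of_nonneg (norm_nonneg _) (by have := hF.pos; omega)).1 h1

lemma natCast_ne0 {n : ℕ} (hn : n ≠ 0) : (n : Qd t c) ≠ 0 := by
  intro h
  have h1 := nm_natCast (t := t) (c := c) n
  have h2 := nm_natCast (t := t) (c := c) 0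
  rw [Nat.cast_zero] at h2
  rw [h, h2] at h1
  have h3 : 0 < n ^ 2 := by positivity
  omega

lemma F_one (hF : Cm N F) : F ((1 : ℕ) : Qd t c) = 1 := by
  have h0 : F ((1 : ℕ) : Qd t c) ≠ 0 := by
    intro h
    have := norm_F hF ((1 : ℕ) : Qd t c)
    rw [h, norm_zero] at this
    exact zero_ne_one this
  have h1 : ((1 : ℕ) : Qd t c) ≠ 0 := natCast_ne0 one_ne_zero
  have h2 := hF.mul _ _ h1 h1
  rw [← Nat.cast_mul, Nat.mul_one] at h2
  exact (mul_eq_left₀ h0).1 h2.symm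

/-- the twist -/
noncomputable def twF (F : Qd t c → ℂ) (z : Qd t c) : ℂ := F z * (gl z : ℂ)

lemma norm_twF (hF : Cm N F) (z : Qd t c) : ‖twF F z‖ = 1 := by
  unfold twF
  rw [norm_mul, norm_F hF]
  rcases gl_eq z with h | h <;> rw [h] <;> simp

open scoped Classical in
/-- the product of one element with `G`, sorted by the content -/
theorem one_term (hF : Cm N F) (hD : t ^ 2 < 4 * c) {a : Qd t c} (ha : a ≠ 0)
    {Z : ℝ} (hZ : 0 < Z) {D : Finset (Qd t c)}
    (hDD : ∀ z : Qd t c, prim z → (nm z : ℝ) ≤ nm a * (Real.exp 1 * Z) → z ∈ D)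
    (hDp : ∀ z ∈ D, prim z) (k : ℤ) :
    F a * ps k a / ((nm a : ℕ) : ℂ) * GF F Z k =
      ∑ z ∈ D, twF F z * ((∑ n ∈ (nm a).divisors,
        (if ∃ u : Qd t c, prim u ∧ a * u = (n : Qd t c) * z then
        F (n : Qd t c) * ((Vl (nm a) n (Real.log Z) z : ℝ) : ℂ) else 0) / ((nm z : ℕ) : ℂ)) *
          ps k z) := by
  have hm0 : 0 < nm a := nm_pos hD ha
  have hmR : (0 : ℝ) < nm a := nm_posR hD ha
  have hmC : ((nm a : ℕ) : ℂ) ≠ 0 := by exact_mod_cast hmR.ne'
  set U := pball t c (Real.exp 1 * Z) with hU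
  set Fs : Qd t c → ℂ := fun u => (1 / ((nm a : ℕ) : ℂ)) * F a *
    (F u * (bg Z u : ℂ)) * ps k (a * u) with hFs
  have e1 : F a * ps k a / ((nm a : ℕ) : ℂ) * GF F Z k = ∑ u ∈ U, Fs u := by
    unfold GF DPG
    rw [Finset.mul_sum]
    refine Finset.sum_congr rfl fun u _ => ?_
    simp only [hFs]
    rw [ps_mul hD]
    ring
  have e2 : ∑ u ∈ U, Fs u = ∑ z ∈ D, ∑ n ∈ (nm a).divisors, ∑ u ∈ U,
      (if a * u = (n : Qd t c) * z then Fs u else 0) := by
    have h1 : ∀ u ∈ U, Fs u = ∑ z ∈ D, ∑ n ∈ (nm a).divisors,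
        (if a * u = (n : Qd t c) * z then Fs u else 0) := by
      intro u hu
      rw [hU, mem_pball hD] at hu
      obtain ⟨n, hn, z, hz, he⟩ := content_exists hD ha hu.1
      have hn0 : 0 < n := Nat.pos_of_mem_divisors hn
      have hnR : (1 : ℝ) ≤ n := by exact_mod_cast hn0
      have hzD : z ∈ D := by
        apply hDD z hz
        have h2 : nm a * nm u = n ^ 2 * nm z := by
          rw [← nm_mul, he, nm_mul, nm_natCast]
        have h3 : (nm a : ℝ) * nm u = (n : ℝ) ^ 2 * nm z := by exact_mod_cast h2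
        have h4 : (0 : ℝ) ≤ nm z := Nat.cast_nonneg _
        have h5 : (1 : ℝ) ≤ (n : ℝ) ^ 2 := one_le_pow₀ hnR
        calc (nm z : ℝ) ≤ (n : ℝ) ^ 2 * nm z := le_mul_of_one_le_left h4 h5
          _ = nm a * nm u := h3.symm
          _ ≤ nm a * (Real.exp 1 * Z) := mul_le_mul_of_nonneg_left hu.2 hmR.le
      rw [Finset.sum_eq_single_of_mem z hzD, Finset.sum_eq_single_of_mem n hn]
      · rw [if_pos he]
      · intro n' hn' hne
        rw [if_neg]
        intro h
        rw [he] at h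
        exact hne (content_unique hz hz hn0.ne' h).1.symm
      · intro z' hz' hne
        refine Finset.sum_eq_zero fun n' hn' => ?_
        rw [if_neg]
        intro h
        rw [he] at h
        exact hne (content_unique hz (hDp z' hz') hn0.ne' h).2.symm
    rw [Finset.sum_congr rfl h1, Finset.sum_comm]
    refine Finset.sum_congr rfl fun z _ => ?_
    rw [Finset.sum_comm]
  rw [e1, e2]
  refine Finset.sum_congr rfl fun z hz => ?_
  have hzp := hDp z hz
  have hN : (0 : ℝ) < nm z := nm_posR hD (prim_ne_zero hzp)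
  have hNc : ((nm z : ℕ) : ℂ) ≠ 0 := by exact_mod_cast hN.ne'
  rw [Finset.sum_mul, Finset.mul_sum]
  refine Finset.sum_congr rfl fun n hn => ?_
  have hn0 : 0 < n := Nat.pos_of_mem_divisors hn
  have hnR : (0 : ℝ) < n := by exact_mod_cast hn0
  have hnC : (n : ℂ) ≠ 0 := by exact_mod_cast hn0.ne'
  by_cases hex : ∃ u : Qd t c, prim u ∧ a * u = (n : Qd t c) * z
  · obtain ⟨u, hu, he⟩ := hex
    rw [if_pos ⟨u, hu, he⟩]
    have hNu : (0 : ℝ) < nm u := nm_posR hD (prim_ne_zero hu)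
    have hNuc : ((nm u : ℕ) : ℂ) ≠ 0 := by exact_mod_cast hNu.ne'
    have h2 : nm a * nm u = n ^ 2 * nm z := by
      rw [← nm_mul, he, nm_mul, nm_natCast]
    have h3 : (nm a : ℝ) * nm u = (n : ℝ) ^ 2 * nm z := by exact_mod_cast h2
    have h3c : ((nm a : ℕ) : ℂ) * ((nm u : ℕ) : ℂ) = (n : ℂ) ^ 2 * ((nm z : ℕ) : ℂ) := by
      exact_mod_cast h2
    have hlog : Real.log (nm u) = Real.log (nm z) + 2 * Real.log n - Real.log (nm a) := by
      have := congrArg Real.log h3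
      rw [Real.log_mul hmR.ne' hNu.ne', Real.log_mul (by positivity) hN.ne', Real.log_pow] at this
      push_cast at this
      linarith
    have hgl : F a * F u = F (n : Qd t c) * F z := by
      rw [← hF.mul a u ha (prim_ne_zero hu), he,
        hF.mul _ _ (natCast_ne0 hn0.ne') (prim_ne_zero hzp)]
    have hps : ps k (a * u) = ps k z := by rw [he, ps_natCast_mul hD hn0]
    by_cases hin : u ∈ U
    · rw [Finset.sum_eq_single_of_mem u hin, if_pos he]
      · simp only [hFs]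
        rw [hps]
        unfold bg Vl
        rw [hlog]
        push_cast
        have hd : (1 / ((nm a : ℕ) : ℂ)) / ((nm u : ℕ) : ℂ) =
            1 / (n : ℂ) ^ 2 / ((nm z : ℕ) : ℂ) := by
          rw [div_div, div_div, h3c]
        unfold twF
        linear_combination (F a * F u * ((w (Real.log (nm z) + 2 * Real.log n -
          Real.log (nm a) - Real.log Z) : ℝ) : ℂ) * ps k z) * hd +
          (((w (Real.log (nm z) + 2 * Real.log n -
          Real.log (nm a) - Real.log Z) : ℝ) : ℂ) * ps k z / (n : ℂ) ^ 2 / ((nm z : ℕ) : ℂ)) * hgl -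
          (F (n : Qd t c) * F z * ((w (Real.log (nm z) + 2 * Real.log n -
          Real.log (nm a) - Real.log Z) : ℝ) : ℂ) * ps k z / (n : ℂ) ^ 2 / ((nm z : ℕ) : ℂ)) *
          gl_sq z
      · intro u' hu' hne
        rw [if_neg]
        intro h
        rw [← he] at h
        exact hne (mul_cancel hD ha h)
    · have hw : w (Real.log (nm u) - Real.log Z) = 0 := by
        apply bg_zero hD hZ hu
        intro h
        apply hin
        rw [hU, mem_pball hD]
        exact ⟨hu, h⟩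
      rw [Finset.sum_eq_zero]
      · unfold Vl
        rw [← hlog, hw]
        simp
      · intro u' hu'
        rw [if_neg]
        intro h
        rw [← he] at h
        rw [mul_cancel hD ha h] at hu'
        exact hin hu'
  · rw [if_neg hex, Finset.sum_eq_zero]
    · simp
    · intro u hu
      rw [if_neg]
      intro h
      rw [hU, mem_pball hD] at hu
      exact hex ⟨u, hu.1, h⟩

theorem GG_eq (F : Qd t c → ℂ) (hD : t ^ 2 < 4 * c) {Y : ℝ} (hY : 0 < Y) (k : ℤ) :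
    GF F Y k = ∑ z ∈ pball t c (Real.exp 2 * Y), twF F z *
      (((((gl z : ℝ) * w (Real.log (nm z) - Real.log Y)) / nm z : ℝ) : ℂ) * ps k z) := by
  unfold GF DPG
  have h12 : Real.exp 1 * Y ≤ Real.exp 2 * Y :=
    mul_le_mul_of_nonneg_right (Real.exp_le_exp.2 (by norm_num)) hY.le
  refine Finset.sum_congr_of_eq_on_inter ?_ ?_ ?_
  · intro z hz hz'
    exfalso
    rw [mem_pball hD] at hz hz'
    exact hz' ⟨hz.1, hz.2.trans h12⟩
  · intro z hz hz'
    rw [mem_pball hD] at hz hz'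
    rw [bg_zero hD hY hz.1 (fun h => hz' ⟨hz.1, h⟩)]
    simp
  · intro z _ _
    unfold bg twF
    push_cast
    linear_combination -(F z * ((w (Real.log (nm z) - Real.log Y) : ℝ) : ℂ) /
      ((nm z : ℕ) : ℂ) * ps k z) * gl_sq z

open scoped Classical in
/-- the contribution of the non-primitive products -/
noncomputable def dBF (F : Qd t c → ℂ) (M : ℕ → Prop) (ϖ : ℕ → Qd t c) (H v₀ v₁ : ℕ) (Y : ℝ)
    (z : Qd t c) : ℂ :=
  ∑ v ∈ Ico v₀ v₁, ∑ m ∈ cellM M H v, ∑ n ∈ m.divisors.erase 1,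
    if ∃ u : Qd t c, prim u ∧ ϖ m * u = (n : Qd t c) * z then
      F (n : Qd t c) * ((Vl m n (Real.log Y - (v : ℝ) / H) z : ℝ) : ℂ) else 0

theorem norm_dBF (hF : Cm N F) (H v₀ v₁ : ℕ) (Y : ℝ) (z : Qd t c) :
    ‖dBF F M ϖ H v₀ v₁ Y z‖ ≤ |dB M ϖ H v₀ v₁ Y z| := by
  classical
  set S : ℝ := ∑ v ∈ Ico v₀ v₁, ∑ m ∈ cellM M H v, ∑ n ∈ m.divisors.erase 1,
    if ∃ u : Qd t c, prim u ∧ ϖ m * u = (n : Qd t c) * z then
      w (Real.log (nm z) + 2 * Real.log n - Real.log m - (Real.log Y - (v : ℝ) / H)) /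
        (n : ℝ) ^ 2 else 0 with hS
  have hS0 : 0 ≤ S := by
    refine Finset.sum_nonneg fun v _ => Finset.sum_nonneg fun m _ => Finset.sum_nonneg
      fun n _ => ?_
    split_ifs
    · exact div_nonneg (w_nonneg' _) (by positivity)
    · exact le_rfl
  have h1 : dB M ϖ H v₀ v₁ Y z = (gl z : ℝ) * S := by
    unfold dB
    rw [hS, Finset.mul_sum]
    refine Finset.sum_congr rfl fun v _ => ?_
    rw [Finset.mul_sum]
    refine Finset.sum_congr rfl fun m _ => ?_
    rw [Finset.mul_sum]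
    refine Finset.sum_congr rfl fun n _ => ?_
    split_ifs
    · unfold Vl
      ring
    · rw [mul_zero]
  have h2 : |dB M ϖ H v₀ v₁ Y z| = S := by
    rw [h1, abs_mul]
    rcases gl_eq z with h | h <;> rw [h] <;> simp [abs_of_nonneg hS0]
  rw [h2, hS]
  unfold dBF
  refine (norm_sum_le _ _).trans (Finset.sum_le_sum fun v _ => ?_)
  refine (norm_sum_le _ _).trans (Finset.sum_le_sum fun m _ => ?_)
  refine (norm_sum_le _ _).trans (Finset.sum_le_sum fun n _ => ?_)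
  split_ifs
  · rw [norm_mul, norm_F hF, one_mul, Complex.norm_real, Real.norm_eq_abs]
    unfold Vl
    rw [abs_div, abs_mul, abs_of_nonneg (w_nonneg' _), abs_of_nonneg (sq_nonneg (n : ℝ))]
    rcases gl_eq z with h | h <;> rw [h] <;> simp
  · rw [norm_zero]

theorem sum_eq (hF : Cm N F) (hD : t ^ 2 < 4 * c) (he : Ele t c Ap Bp M E ρ ϖ) {H v₀ v₁ : ℕ}
    (hH : 1 ≤ H) {Y : ℝ} (hY : 0 < Y) (k : ℤ) :
    ∑ v ∈ Ico v₀ v₁, PF F M ϖ H v k * GF F (Y * Real.exp (-((v : ℝ) / H))) k =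
      -∑ z ∈ pball t c (Real.exp 2 * Y), twF F z *
        (((((gl z : ℝ) * dT M ϖ H v₀ v₁ Y z : ℝ) : ℂ) + dBF F M ϖ H v₀ v₁ Y z) /
          ((nm z : ℕ) : ℂ) * ps k z) := by
  classical
  have hH0 : (0 : ℝ) < H := by exact_mod_cast hH
  have h1 : ∀ v ∈ Ico v₀ v₁, PF F M ϖ H v k * GF F (Y * Real.exp (-((v : ℝ) / H))) k =
      -∑ z ∈ pball t c (Real.exp 2 * Y), ∑ m ∈ cellM M H v, twF F z *
        (((((gl z : ℝ) * (if ϖ m ∣ z then
          w (Real.log (nm z) - Real.log Y - (Real.log m - (v : ℝ) / H)) else 0) : ℝ) : ℂ) +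
          ∑ n ∈ m.divisors.erase 1,
            (if ∃ u : Qd t c, prim u ∧ ϖ m * u = (n : Qd t c) * z then
              F (n : Qd t c) * ((Vl m n (Real.log Y - (v : ℝ) / H) z : ℝ) : ℂ) else 0)) /
                ((nm z : ℕ) : ℂ) * ps k z) := by
    intro v _
    unfold PF
    rw [neg_mul, Finset.sum_mul, Finset.sum_comm]
    congr 1
    refine Finset.sum_congr rfl fun m hm => ?_
    obtain ⟨hmM, hm1, hm2⟩ := cellM_facts hm
    obtain ⟨-, -, hmpos, hϖ⟩ := ele_facts he hmM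
    have hn := (he.elt m hmM).1
    have hm0 : (0 : ℝ) < m := by exact_mod_cast hmpos
    set Z : ℝ := Y * Real.exp (-((v : ℝ) / H)) with hZ
    have hZ0 : 0 < Z := by positivity
    have hlogZ : Real.log Z = Real.log Y - (v : ℝ) / H := by
      rw [hZ, Real.log_mul hY.ne' (Real.exp_pos _).ne', Real.log_exp]; ring
    have hmZ : (m : ℝ) * (Real.exp 1 * Z) ≤ Real.exp 2 * Y := by
      have h5 : (m : ℝ) ≤ Real.exp (1 + (v : ℝ) / H) := by
        rw [← Real.log_le_iff_le_exp hm0]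
        have h3 : ((v : ℝ) + 1) / H = (v : ℝ) / H + 1 / H := by ring
        have h4 : (1 : ℝ) / H ≤ 1 := by
          rw [div_le_one hH0]; exact_mod_cast hH
        linarith
      calc (m : ℝ) * (Real.exp 1 * Z) ≤ Real.exp (1 + (v : ℝ) / H) * (Real.exp 1 * Z) :=
            mul_le_mul_of_nonneg_right h5 (by positivity)
        _ = Real.exp 2 * Y := by
            rw [hZ]
            have : Real.exp (1 + (v : ℝ) / H) * (Real.exp 1 * (Y * Real.exp (-((v : ℝ) / H)))) =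
              (Real.exp (1 + (v : ℝ) / H) * Real.exp 1 * Real.exp (-((v : ℝ) / H))) * Y := by ring
            rw [this, ← Real.exp_add, ← Real.exp_add]
            congr 2
            ring
    have h2 := one_term hF hD hϖ hZ0 (D := pball t c (Real.exp 2 * Y))
      (by
        intro z hz hz2
        rw [hn] at hz2
        rw [mem_pball hD]
        exact ⟨hz, hz2.trans hmZ⟩)
      (fun z hz => ((mem_pball hD).1 hz).1) k
    rw [hn] at h2
    rw [h2]
    refine Finset.sum_congr rfl fun z hz => ?_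
    rw [mem_pball hD] at hz
    congr 2
    have h1m : 1 ∈ m.divisors := by
      rw [Nat.mem_divisors]
      exact ⟨one_dvd _, by omega⟩
    rw [← Finset.sum_div, ← Finset.add_sum_erase _ _ h1m, hlogZ]
    congr 2
    have hiff : (∃ u : Qd t c, prim u ∧ ϖ m * u = ((1 : ℕ) : Qd t c) * z) ↔ ϖ m ∣ z := by
      constructor
      · rintro ⟨u, -, hu⟩
        rw [Nat.cast_one, one_mul] at hu
        exact ⟨u, hu.symm⟩
      · rintro ⟨u, rfl⟩
        refine ⟨u, prim_of_dvd hz.1 (Dvd.intro_left _ rfl), ?_⟩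
        rw [Nat.cast_one, one_mul]
    by_cases hd : ϖ m ∣ z
    · rw [if_pos (hiff.2 hd), if_pos hd, F_one hF, one_mul]
      unfold Vl
      rw [Nat.cast_one, Real.log_one]
      have e1 : Real.log (nm z) + 2 * 0 - Real.log m - (Real.log Y - (v : ℝ) / H) =
        Real.log (nm z) - Real.log Y - (Real.log m - (v : ℝ) / H) := by ring
      rw [e1]
      congr 1
      ring
    · rw [if_neg (fun h => hd (hiff.1 h)), if_neg hd, mul_zero, Complex.ofReal_zero]
  rw [Finset.sum_congr rfl h1, Finset.sum_neg_distrib, Finset.sum_comm]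
  congr 1
  refine Finset.sum_congr rfl fun z _ => ?_
  rw [← Finset.sum_congr rfl (fun v _ => Finset.mul_sum _ _ _), ← Finset.mul_sum]
  congr 1
  rw [← Finset.sum_congr rfl (fun v _ => Finset.sum_mul _ _ _), ← Finset.sum_mul]
  congr 1
  rw [← Finset.sum_congr rfl (fun v _ => Finset.sum_div _ _ _), ← Finset.sum_div]
  congr 1
  unfold dT dBF
  rw [Finset.mul_sum]
  push_cast
  rw [← Finset.sum_add_distrib]
  refine Finset.sum_congr rfl fun v _ => ?_
  rw [Finset.mul_sum, ← Finset.sum_add_distrib]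

theorem dec (hD : t ^ 2 < 4 * c) (hlati : S_LATI t c) (htk : S_TK t c) :
    Pool.Agent.W251.GX.S_DEC t c := by
  intro Ap Bp M E ρ ϖ he N F hF
  obtain ⟨C, hC, hb⟩ := dec_bound hD hlati htk he
  obtain ⟨K, hK, hBm⟩ := dB_mean hD hlati he
  refine ⟨2 * C + 8 * K, by positivity, fun H v₀ v₁ hH hHv hW Y hexp => ?_⟩
  have h := hb H v₀ v₁ hH hHv hW Y hexp
  have hY : 1 ≤ Y := by
    refine le_trans ?_ hexp
    rw [← Real.exp_zero]
    apply Real.exp_le_exp.mpr; positivity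
  have hY0 : 0 < Y := by linarith
  have hBm' := hBm H v₀ v₁ hH Y hY0
  set W : ℝ := ∑ v ∈ Ico v₀ v₁, mE M H v with hWdef
  have hW0 : 0 < W := by linarith
  have hWc : (W : ℂ) ≠ 0 := by exact_mod_cast hW0.ne'
  refine ⟨pball t c (Real.exp 2 * Y), fun z => twF F z *
    (((((gl z : ℝ) * (w (Real.log (nm z) - Real.log Y) -
      dT M ϖ H v₀ v₁ Y z / W) : ℝ) : ℂ) - dBF F M ϖ H v₀ v₁ Y z / (W : ℂ)) /
        ((nm z : ℕ) : ℂ)), ?_, ?_, ?_⟩
  · intro z hz
    rw [mem_pball hD] at hz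
    exact hz
  · intro k
    rw [sum_eq hF hD he hH hY0 k, GG_eq F hD hY0 k]
    unfold DPG
    rw [neg_mul_neg, Finset.mul_sum, ← Finset.sum_add_distrib]
    refine Finset.sum_congr rfl fun z hz => ?_
    rw [mem_pball hD] at hz
    have hzc : ((nm z : ℕ) : ℂ) ≠ 0 := by exact_mod_cast (nm_posR hD (prim_ne_zero hz.1)).ne'
    push_cast
    field_simp
    ring
  · have hpt : ∀ z ∈ pball t c (Real.exp 2 * Y), ‖twF F z *
        (((((gl z : ℝ) * (w (Real.log (nm z) - Real.log Y) -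
          dT M ϖ H v₀ v₁ Y z / W) : ℝ) : ℂ) - dBF F M ϖ H v₀ v₁ Y z / (W : ℂ)) /
            ((nm z : ℕ) : ℂ))‖ ^ 2 ≤
        2 * ‖((((gl z : ℝ) * (w (Real.log (nm z) - Real.log Y) -
          dT M ϖ H v₀ v₁ Y z / W) - dB M ϖ H v₀ v₁ Y z / W) / nm z : ℝ) : ℂ)‖ ^ 2 +
        8 / W ^ 2 * ((dB M ϖ H v₀ v₁ Y z) ^ 2 / (nm z : ℝ) ^ 2) := by
      intro z hz
      rw [mem_pball hD] at hz
      have hzr : (0 : ℝ) < nm z := nm_posR hD (prim_ne_zero hz.1)
      have hzc : ((nm z : ℕ) : ℂ) ≠ 0 := by exact_mod_cast hzr.ne'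
      rw [norm_mul, norm_twF hF, one_mul]
      set x : ℂ := ((((gl z : ℝ) * (w (Real.log (nm z) - Real.log Y) -
          dT M ϖ H v₀ v₁ Y z / W) - dB M ϖ H v₀ v₁ Y z / W) / nm z : ℝ) : ℂ) with hx
      set y : ℂ := ((dB M ϖ H v₀ v₁ Y z : ℂ) - dBF F M ϖ H v₀ v₁ Y z) / (W : ℂ) /
        ((nm z : ℕ) : ℂ) with hy
      have e1 : ((((gl z : ℝ) * (w (Real.log (nm z) - Real.log Y) -
          dT M ϖ H v₀ v₁ Y z / W) : ℝ) : ℂ) - dBF F M ϖ H v₀ v₁ Y z / (W : ℂ)) /
            ((nm z : ℕ) : ℂ) = x + y := by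
        rw [hx, hy]
        push_cast
        ring
      rw [e1]
      have e2 : ‖y‖ ≤ 2 * |dB M ϖ H v₀ v₁ Y z| / W / nm z := by
        rw [hy, norm_div, norm_div, Complex.norm_real, Real.norm_eq_abs, abs_of_pos hW0,
          Complex.norm_natCast]
        apply div_le_div_of_nonneg_right _ hzr.le
        apply div_le_div_of_nonneg_right _ hW0.le
        refine (norm_sub_le _ _).trans ?_
        rw [Complex.norm_real, Real.norm_eq_abs]
        have := norm_dBF (M := M) (ϖ := ϖ) hF H v₀ v₁ Y z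
        linarith
      have e3 : ‖x + y‖ ^ 2 ≤ 2 * ‖x‖ ^ 2 + 2 * ‖y‖ ^ 2 := by
        have h5 := norm_add_le x y
        have h6 := norm_nonneg (x + y)
        nlinarith [sq_nonneg (‖x‖ - ‖y‖), norm_nonneg x, norm_nonneg y]
      have e4 : ‖y‖ ^ 2 ≤ (2 * |dB M ϖ H v₀ v₁ Y z| / W / nm z) ^ 2 :=
        pow_le_pow_left₀ (norm_nonneg _) e2 2
      have e5 : (2 * |dB M ϖ H v₀ v₁ Y z| / W / nm z) ^ 2 =
          4 / W ^ 2 * ((dB M ϖ H v₀ v₁ Y z) ^ 2 / (nm z : ℝ) ^ 2) := by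
        rw [div_pow, div_pow, mul_pow, sq_abs]
        ring
      rw [e5] at e4
      have e6 : 8 / W ^ 2 * ((dB M ϖ H v₀ v₁ Y z) ^ 2 / (nm z : ℝ) ^ 2) =
          2 * (4 / W ^ 2 * ((dB M ϖ H v₀ v₁ Y z) ^ 2 / (nm z : ℝ) ^ 2)) := by ring
      rw [e6]
      linarith
    have hH0 : (0 : ℝ) < H := by exact_mod_cast hH
    have h2 : 8 / W ^ 2 * (Y * ∑ z ∈ pball t c (Real.exp 2 * Y),
        (dB M ϖ H v₀ v₁ Y z) ^ 2 / (nm z : ℝ) ^ 2) ≤ 8 * K * (1 / W) := by
      have e1 : Y * ∑ z ∈ pball t c (Real.exp 2 * Y),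
          (dB M ϖ H v₀ v₁ Y z) ^ 2 / (nm z : ℝ) ^ 2 ≤ K * W := by
        refine le_trans (le_of_eq ?_) hBm'
        rw [Finset.mul_sum]
        refine Finset.sum_congr rfl fun z _ => ?_
        ring
      calc 8 / W ^ 2 * (Y * ∑ z ∈ pball t c (Real.exp 2 * Y),
            (dB M ϖ H v₀ v₁ Y z) ^ 2 / (nm z : ℝ) ^ 2) ≤ 8 / W ^ 2 * (K * W) :=
            mul_le_mul_of_nonneg_left e1 (by positivity)
        _ = 8 * K * (1 / W) := by
            field_simp
    calc Y * ∑ z ∈ pball t c (Real.exp 2 * Y), ‖twF F z *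
          (((((gl z : ℝ) * (w (Real.log (nm z) - Real.log Y) -
            dT M ϖ H v₀ v₁ Y z / W) : ℝ) : ℂ) - dBF F M ϖ H v₀ v₁ Y z / (W : ℂ)) /
              ((nm z : ℕ) : ℂ))‖ ^ 2
        ≤ Y * ∑ z ∈ pball t c (Real.exp 2 * Y), (2 * ‖((((gl z : ℝ) *
            (w (Real.log (nm z) - Real.log Y) -
            dT M ϖ H v₀ v₁ Y z / W) - dB M ϖ H v₀ v₁ Y z / W) / nm z : ℝ) : ℂ)‖ ^ 2 +
            8 / W ^ 2 * ((dB M ϖ H v₀ v₁ Y z) ^ 2 / (nm z : ℝ) ^ 2)) :=
          mul_le_mul_of_nonneg_left (Finset.sum_le_sum hpt) hY0.le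
      _ = 2 * (Y * ∑ z ∈ pball t c (Real.exp 2 * Y), ‖((((gl z : ℝ) *
            (w (Real.log (nm z) - Real.log Y) -
            dT M ϖ H v₀ v₁ Y z / W) - dB M ϖ H v₀ v₁ Y z / W) / nm z : ℝ) : ℂ)‖ ^ 2) +
          8 / W ^ 2 * (Y * ∑ z ∈ pball t c (Real.exp 2 * Y),
            (dB M ϖ H v₀ v₁ Y z) ^ 2 / (nm z : ℝ) ^ 2) := by
          rw [Finset.sum_add_distrib, ← Finset.mul_sum, ← Finset.mul_sum]
          ring
      _ ≤ 2 * (C * (1 / W + 1 / (H : ℝ) ^ 2)) + 8 * K * (1 / W) := by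
          have := mul_le_mul_of_nonneg_left h (zero_le_two (α := ℝ))
          linarith
      _ ≤ (2 * C + 8 * K) * (1 / W + 1 / (H : ℝ) ^ 2) := by
          have : 0 ≤ 8 * K * (1 / (H : ℝ) ^ 2) := by positivity
          linarith

end Pool.Agent.W803.GX
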